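import Mathlib
import Pool.Agent.H242R3.ES.Stmts
import Pool.Agent.H242R3.ES.Asm
import Pool.Agent.H782R3.ES.L1
import Pool.Agent.H154R5.ESL2
import Pool.Agent.H531R3.ES.L3
import Pool.Agent.H023R3.ES.TLa
import Pool.Agent.H725R3.ES.TLb
import Pool.Agent.H107R3.ES.C2
import Pool.Agent.H242R3.ES.C3_helper798
import Pool.Agent.H224R3.ES.C4
import Pool.Agent.H497R3.ESP1
import Pool.Agent.H455R3.ES.P2
import Pool.Agent.H821R3.ES.P3
import Pool.Agent.H242R3.ES.PMH492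
import Pool.Agent.H214R3.ES.Sum
import Pool.Agent.H885R3.ESStep
import Pool.Agent.H138R3.ES.Glue
import Pool.Agent.H780R3.ES.F1
import Pool.Agent.H242R3.ES.F2a
import Pool.Agent.H242R3.ES.TF2b
import Pool.Agent.H242R3.ES.F3_helper861
import Pool.Agent.H428R3.ESFin

set_option autoImplicit false
open Matrix

namespace Pool.Agent.Results.MP_43c1cf_co.SimplicialPolytopes

/-- Every edge-scribable simplicial polytope of dimension `d + 1`, `d ≥ 3`, is Möbius unique: if `V` and `W`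
are full-dimensional combinatorially equivalent polytopes in dimension `d + 1 ≥ 4` with all edges tangent to
the unit sphere, and every proper face of `V` is a simplex, then a Lorentz transformation maps one onto the
other. -/
theorem result :
  ∀ d : ℕ, 3 ≤ d → ∀ V W : Finset (Fin (d+1) → ℝ),
    (interior (convexHull ℝ (V : Set (Fin (d+1) → ℝ)))).Nonempty →
    (interior (convexHull ℝ (W : Set (Fin (d+1) → ℝ)))).Nonempty →
    (∀ S ⊆ Set.extremePoints ℝ (convexHull ℝ (V : Set (Fin (d+1) → ℝ))),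
      S ≠ Set.extremePoints ℝ (convexHull ℝ (V : Set (Fin (d+1) → ℝ))) →
      IsExposed ℝ (convexHull ℝ (V : Set (Fin (d+1) → ℝ))) (convexHull ℝ S) →
        AffineIndependent ℝ (fun x : S => (x : Fin (d+1) → ℝ))) →
    (∀ a ∈ V, ∀ b ∈ V, a ≠ b →
      IsExposed ℝ (convexHull ℝ (V : Set (Fin (d+1) → ℝ))) (segment ℝ a b) →
      ∃ p ∈ segment ℝ a b, ∑ i, p i ^ 2 = 1 ∧
        ∀ t : ℝ, 1 ≤ ∑ i, (a i + t * (b i - a i)) ^ 2) →
    (∀ a ∈ W, ∀ b ∈ W, a ≠ b →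
      IsExposed ℝ (convexHull ℝ (W : Set (Fin (d+1) → ℝ))) (segment ℝ a b) →
      ∃ p ∈ segment ℝ a b, ∑ i, p i ^ 2 = 1 ∧
        ∀ t : ℝ, 1 ≤ ∑ i, (a i + t * (b i - a i)) ^ 2) →
    (∃ f : (Fin (d+1) → ℝ) → (Fin (d+1) → ℝ),
      Set.BijOn f (Set.extremePoints ℝ (convexHull ℝ (V : Set (Fin (d+1) → ℝ))))
        (Set.extremePoints ℝ (convexHull ℝ (W : Set (Fin (d+1) → ℝ)))) ∧
      ∀ S ⊆ Set.extremePoints ℝ (convexHull ℝ (V : Set (Fin (d+1) → ℝ))),
        (IsExposed ℝ (convexHull ℝ (V : Set (Fin (d+1) → ℝ))) (convexHull ℝ S) ↔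
          IsExposed ℝ (convexHull ℝ (W : Set (Fin (d+1) → ℝ))) (convexHull ℝ (f '' S)))) →
    ∃ M : Matrix (Option (Fin (d+1))) (Option (Fin (d+1))) ℝ,
      M.transpose * Matrix.diagonal (fun i => Option.elim i (-1 : ℝ) (fun _ => (1 : ℝ))) * M
          = Matrix.diagonal (fun i => Option.elim i (-1 : ℝ) (fun _ => (1 : ℝ))) ∧
      (∀ x ∈ convexHull ℝ (V : Set (Fin (d+1) → ℝ)),
          (M *ᵥ (fun i => Option.elim i (1 : ℝ) x)) none ≠ 0) ∧
      (fun x : Fin (d+1) → ℝ => fun j : Fin (d+1) =>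
          (M *ᵥ (fun i => Option.elim i (1 : ℝ) x)) (some j) /
            (M *ᵥ (fun i => Option.elim i (1 : ℝ) x)) none)
        '' convexHull ℝ (V : Set (Fin (d+1) → ℝ))
        = convexHull ℝ (W : Set (Fin (d+1) → ℝ)) := by
  intro d hd V W hV hW hS hTV hTW hf
  have hTLs : Pool.Agent.H725R3.ES.TLaStmt := by
    intro κ _ m s u hc hl
    exact Pool.Agent.H023R3.ES.tla s u hc hl
  have h := Pool.Agent.H242R3.ES.final_of _root_.H782R3.ESL1.t Pool.Agent.H154R5.ESL2.t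
    Pool.Agent.H531R3.ESL3.t (Pool.Agent.H725R3.ES.taskTL_of hTLs) Pool.Agent.H107R3.ES.taskC1
    Pool.Agent.H107R3.ES.taskC2 Pool.Agent.H242R3.ES.C3H798.t Pool.Agent.H224R3.ES.taskC4
    Pool.Agent.H497R3.ESP1.t Pool.Agent.H455R3.ES.t Pool.Agent.H821R3.ES.taskP3
    Pool.Agent.H242R3.ES.PMH492.t Pool.Agent.H214R3.ESSum.t Pool.Agent.H885R3.ESStep.t
    Pool.Agent.H138R3.ES.Glue.t Pool.Agent.H780R3.ES.t Pool.Agent.H242R3.ES.F2aT.main
    Pool.Agent.H242R3.ES.F2b.t Pool.Agent.H242R3.ES.F3.t Pool.Agent.H428R3.ESFin.t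
  exact h d hd V W hV hW hTV hTW hS hf

end Pool.Agent.Results.MP_43c1cf_co.SimplicialPolytopes
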